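import Mathlib
import Pool.Agent.Helper28.BN.N1

set_option autoImplicit false

namespace Pool.Agent.Results.MP_629dac_al.LargePrimes

/-- A nilpotent group `G` generated by at most `d` left `n`-Engel elements: `γ_{f(n,d)+1}(G)` is a torsion group
whose elements have orders with all prime factors at most `P(n,d)`. -/
theorem result :
    ∃ f P : ℕ → ℕ → ℕ, ∀ (n d : ℕ) (G : Type) [Group G] [Group.IsNilpotent G] (S : Finset G),
      S.card ≤ d →
      Subgroup.closure (S : Set G) = ⊤ →
      (∀ a ∈ S, ∀ x : G, (fun y : G => y⁻¹ * a⁻¹ * y * a)^[n] x = 1) →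
      ∀ x ∈ Subgroup.lowerCentralSeries (⊤ : Subgroup G) (f n d),
        ∃ m : ℕ, 0 < m ∧ (∀ p : ℕ, p.Prime → p ∣ m → p ≤ P n d) ∧ x ^ m = 1 :=
  Pool.Agent.Helper28.BN.main

end Pool.Agent.Results.MP_629dac_al.LargePrimes
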